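import Pool.Agent.Q81.TF.Stm

/-! # Project TF (helper81), job TF-HSM: small labels have small heights, uniformly -/

set_option autoImplicit false

open Set MeasureTheory Filter Topology

namespace Pool.Agent.Q162.TF

open Pool.Agent.Q81.TF

theorem hsm : S_HSM := by
  intro n x0 x1 t1 t2 W D s g h1 h3 ht F H hH
  have hRW : Icc x0 x1 ×ˢ Icc t1 t2 ⊆ W := fun z hz => F.R_sub z.1 hz.1 z.2 hz.2
  have hgc : ContinuousOn g (Icc x0 x1 ×ˢ Icc t1 t2) := F.g_cont.mono hRW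
  have hcomp : IsCompact (Icc x0 x1 ×ˢ Icc t1 t2) := isCompact_Icc.prod isCompact_Icc
  have hKc : IsCompact ((Icc x0 x1 ×ˢ Icc t1 t2) ∩ {z | H ≤ g z}) := by
    have h1 : IsClosed ((Icc x0 x1 ×ˢ Icc t1 t2) ∩ g ⁻¹' Ici H) :=
      hgc.preimage_isClosed_of_isClosed hcomp.isClosed isClosed_Ici
    exact hcomp.of_isClosed_subset h1 inter_subset_left
  rcases ((Icc x0 x1 ×ˢ Icc t1 t2) ∩ {z | H ≤ g z}).eq_empty_or_nonempty with hK | hK
  · refine ⟨1, one_pos, fun x hx t ht' _ => ?_⟩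
    by_contra hcon
    push Not at hcon
    have : (x, t) ∈ (Icc x0 x1 ×ˢ Icc t1 t2) ∩ {z | H ≤ g z} := ⟨⟨hx, ht'⟩, hcon.le⟩
    rw [hK] at this
    exact this
  · obtain ⟨z0, hz0, hmin⟩ := hKc.exists_isMinOn hK F.mF_cont.continuousOn
    have hgz : 0 < g z0 := hH.trans_le hz0.2
    have hD : z0 ∈ D := by
      by_contra hcon
      exact hgz.ne' (F.g_zero z0 (hRW hz0.1) hcon)
    have hpos : 0 < mF x0 x1 t1 t2 g z0 := F.mF_pos (x := z0.1) (t := z0.2) hz0.1.1 hz0.1.2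
      ((F.D_iff z0.1 hz0.1.1 z0.2 hz0.1.2).1 hD)
    refine ⟨mF x0 x1 t1 t2 g z0 / 2, by linarith, fun x hx t ht' hm => ?_⟩
    by_contra hcon
    push Not at hcon
    have h2 : (x, t) ∈ (Icc x0 x1 ×ˢ Icc t1 t2) ∩ {z | H ≤ g z} := ⟨⟨hx, ht'⟩, hcon.le⟩
    have h3 := hmin h2
    simp only [mem_ofPred_eq] at h3
    linarith

end Pool.Agent.Q162.TF
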