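import Pool.Agent.Q81.TF.Stm

/-! # Project TF (helper81), job TF-SL2: pointwise bound and label variable -/

set_option autoImplicit false

open Set MeasureTheory Filter Topology

namespace Pool.Agent.Q162.TF

open Pool.Agent.Q81.TF

/-- the pointwise bound -/
theorem pw {b z w f f1 f2 Y : ℝ} (hb : 0 < b) (hz : 0 ≤ z) (h4 : w ^ 4 * b ^ 4 ≤ 20736 * z ^ 3)
    (hY : Real.sqrt z * f1 ^ 2 ≤ Y) (hY0 : 0 ≤ Y) :
    -(w * (f * (f1 * f2))) - z * f2 ^ 2 ≤ 36 * Y / b ^ 2 * f ^ 2 := by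
  have hr : 0 ≤ 36 * Y / b ^ 2 * f ^ 2 := by positivity
  rcases eq_or_lt_of_le hz with h0 | hpos
  · rw [← h0] at h4 ⊢
    have h5 : w ^ 4 * b ^ 4 ≤ 0 := by simpa using h4
    have h6 : w = 0 := by
      by_contra hw
      have : 0 < w ^ 4 * b ^ 4 := by positivity
      linarith
    rw [h6]
    simpa using hr
  · obtain ⟨s, hs⟩ : ∃ s, s = Real.sqrt z := ⟨_, rfl⟩
    have hs0 : 0 < s := hs ▸ Real.sqrt_pos.2 hpos
    have hsz : s ^ 2 = z := by rw [hs, Real.sq_sqrt hz]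
    rw [← hs] at hY
    have h5 : w ^ 2 * b ^ 2 ≤ 144 * s ^ 3 := by
      have h6 : (w ^ 2 * b ^ 2) ^ 2 ≤ (144 * s ^ 3) ^ 2 := by
        calc (w ^ 2 * b ^ 2) ^ 2 = w ^ 4 * b ^ 4 := by ring
          _ ≤ 20736 * z ^ 3 := h4
          _ = (144 * s ^ 3) ^ 2 := by rw [← hsz]; ring
      exact le_of_sq_le_sq h6 (by positivity)
    have h7 : -(w * (f * (f1 * f2))) - z * f2 ^ 2 ≤ w ^ 2 * f ^ 2 * f1 ^ 2 / (4 * s ^ 2) := by
      rw [le_div_iff₀ (by positivity), ← hsz]
      nlinarith [sq_nonneg (w * f * f1 + 2 * s ^ 2 * f2)]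
    refine h7.trans ?_
    have h8 : w ^ 2 ≤ 144 * s ^ 3 / b ^ 2 := by
      rw [le_div_iff₀ (by positivity)]
      exact h5
    calc w ^ 2 * f ^ 2 * f1 ^ 2 / (4 * s ^ 2)
        ≤ (144 * s ^ 3 / b ^ 2) * f ^ 2 * f1 ^ 2 / (4 * s ^ 2) := by gcongr
      _ = 36 / b ^ 2 * f ^ 2 * (s * f1 ^ 2) := by
          field_simp
          ring
      _ ≤ 36 / b ^ 2 * f ^ 2 * Y := by gcongr
      _ = _ := by ring

theorem sl2 : S_SL2 := by
  intro n p a E b N H Y f f1 f2 f3 ft m R ζ ζ1 S x hx hR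
  have hsub : Icc p x ⊆ Icc p a := Icc_subset_Icc le_rfl hx.2
  have cm : ContinuousOn m (Icc p a) := fun y hy => (S.dm y hy).continuousAt.continuousWithinAt
  have cf : ContinuousOn f (Icc p a) := fun y hy => (S.P.d0 y hy).continuousAt.continuousWithinAt
  have cf1 : ContinuousOn f1 (Icc p a) := fun y hy => (S.P.d1 y hy).continuousAt.continuousWithinAt
  have cf2 : ContinuousOn f2 (Icc p a) := fun y hy => (S.P.d2 y hy).continuousAt.continuousWithinAt
  have cz : Continuous ζ := continuous_iff_continuousAt.2 fun v => (S.Z.d0 v).continuousAt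
  have cw : ContinuousOn (fun y => f y ^ (2 - n)) (Icc p a) :=
    (S.P.cont le_rfl le_rfl).2.2.2.2.2
  have czm : ContinuousOn (fun y => ζ (m y)) (Icc p a) := cz.comp_continuousOn cm
  have cz1m : ContinuousOn (fun y => ζ1 (m y)) (Icc p a) := S.Z.c1.comp_continuousOn cm
  obtain ⟨φ, hφ⟩ : ∃ φ : ℝ → ℝ, ∀ y, φ y =
      -(ζ1 (m y) * (f y * (f1 y * f2 y))) - ζ (m y) * f2 y ^ 2 := ⟨_, fun _ => rfl⟩
  have cφ : ContinuousOn φ (Icc p a) := by
    have h1 : ContinuousOn (fun y => -(ζ1 (m y) * (f y * (f1 y * f2 y))) - ζ (m y) * f2 y ^ 2)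
        (Icc p a) :=
      ((cz1m.mul (cf.mul (cf1.mul cf2))).neg).sub (czm.mul (cf2.pow 2))
    exact h1.congr fun y _ => hφ y
  have hi : ∀ {g : ℝ → ℝ} {u v : ℝ}, ContinuousOn g (Icc p a) → p ≤ u → u ≤ v → v ≤ a →
      IntervalIntegrable g volume u v := by
    intro g u v hg hu huv hv
    apply ContinuousOn.intervalIntegrable
    rw [uIcc_of_le huv]
    exact hg.mono (Icc_subset_Icc hu hv)
  -- monotonicity of the labels
  have mm : ∀ {u v : ℝ}, p ≤ u → u ≤ v → v ≤ a → m u ≤ m v := by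
    intro u v hu huv hv
    have hmono : MonotoneOn m (Icc p a) := by
      apply monotoneOn_of_deriv_nonneg (convex_Icc p a) cm
      · intro y hy
        rw [interior_Icc] at hy
        exact (S.dm y ⟨hy.1.le, hy.2.le⟩).differentiableAt.differentiableWithinAt
      · intro y hy
        rw [interior_Icc] at hy
        rw [(S.dm y ⟨hy.1.le, hy.2.le⟩).deriv]
        exact (S.P.pos y ⟨hy.1.le, hy.2.le⟩).le
    exact hmono ⟨hu, huv.trans hv⟩ ⟨hu.trans huv, hv⟩ huv
  have hint : ∀ {u v : ℝ}, p ≤ u → u ≤ v → v ≤ a → ∫ y in u..v, f y = m v - m u := by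
    intro u v hu huv hv
    refine intervalIntegral.integral_eq_sub_of_hasDerivAt (fun y hy => ?_) (hi cf hu huv hv)
    rw [uIcc_of_le huv] at hy
    exact S.dm y ⟨hu.trans hy.1, hy.2.trans hv⟩
  -- monotonicity of `R`
  have hRm : ∀ y ∈ Icc p x, R y ≤ 2 * N := by
    intro y hy
    have hya : y ≤ a := hy.2.trans hx.2
    refine le_trans ?_ hR
    rw [S.hR y ⟨hy.1, hya⟩, S.hR x hx]
    have cR : ContinuousOn (fun y => ζ (m y) * f y ^ (2 - n)) (Icc p a) := czm.mul cw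
    rw [← intervalIntegral.integral_add_adjacent_intervals (hi cR le_rfl hy.1 hya)
      (hi cR hy.1 hy.2 hx.2)]
    have h1 : 0 ≤ ∫ u in y..x, ζ (m u) * f u ^ (2 - n) := by
      apply intervalIntegral.integral_nonneg hy.2
      intro u hu
      exact mul_nonneg (S.Z.range _).1
        (Real.rpow_nonneg (S.P.pos u ⟨hy.1.trans hu.1, hu.2.trans hx.2⟩).le _)
    linarith
  have hC0 : 0 ≤ 36 * (Y * H) / b ^ 2 := by
    have := S.hY0
    have := S.hH0
    have := S.hb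
    positivity
  -- the two pointwise bounds
  have hlow : ∀ y ∈ Icc p x, m y ≤ 2 * b → φ y ≤ 36 * (Y * H) / b ^ 2 * f y := by
    intro y hy hm
    have hya : y ∈ Icc p a := hsub hy
    have h1 := pw (f := f y) (f1 := f1 y) (f2 := f2 y) S.hb (S.Z.range (m y)).1
      (S.Z.four (m y)) (S.hY y hya (hRm y hy)) S.hY0
    rw [hφ]
    refine h1.trans ?_
    have h2 := S.hH y hya hm
    have h3 := S.P.pos y hya
    have h4 : 0 ≤ 36 * Y / b ^ 2 := by
      have := S.hY0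
      have := S.hb
      positivity
    calc 36 * Y / b ^ 2 * f y ^ 2 = 36 * Y / b ^ 2 * (f y * f y) := by ring
      _ ≤ 36 * Y / b ^ 2 * (H * f y) := by gcongr
      _ = _ := by ring
  have hhigh : ∀ y ∈ Icc p x, 2 * b ≤ m y → φ y ≤ 0 := by
    intro y hy hm
    rw [hφ, (S.Z.hi (m y) hm).2, (S.Z.hi (m y) hm).1]
    nlinarith [sq_nonneg (f2 y)]
  have hgoal : ∫ y in p..x, φ y ≤ 36 * (Y * H) / b := by
    have key : ∀ x' ∈ Icc p x, (∀ y ∈ Icc p x', m y ≤ 2 * b) → m x' ≤ 2 * b →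
        ∫ y in p..x', φ y ≤ 36 * (Y * H) / b := by
      intro x' hx' hm hm'
      have h1 : ∫ y in p..x', φ y ≤ ∫ y in p..x', 36 * (Y * H) / b ^ 2 * f y := by
        apply intervalIntegral.integral_mono_on hx'.1 (hi cφ le_rfl hx'.1 (hx'.2.trans hx.2))
          (hi (continuousOn_const.mul cf) le_rfl hx'.1 (hx'.2.trans hx.2))
        intro y hy
        exact hlow y ⟨hy.1, hy.2.trans hx'.2⟩ (hm y hy)
      refine h1.trans ?_
      rw [intervalIntegral.integral_const_mul, hint le_rfl hx'.1 (hx'.2.trans hx.2), S.mp]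
      have hb := S.hb
      calc 36 * (Y * H) / b ^ 2 * (m x' - b) ≤ 36 * (Y * H) / b ^ 2 * b := by
            gcongr
            linarith
        _ = _ := by field_simp
    rcases le_or_gt (m x) (2 * b) with h | h
    · exact key x ⟨hx.1, le_rfl⟩ (fun y hy => (mm hy.1 hy.2 hx.2).trans h) h
    · have hmp : m p ≤ 2 * b := by
        rw [S.mp]
        linarith [S.hb]
      obtain ⟨x', hx', hmx⟩ := intermediate_value_Icc hx.1 (cm.mono hsub) ⟨hmp, h.le⟩
      rw [← intervalIntegral.integral_add_adjacent_intervals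
        (hi cφ le_rfl hx'.1 (hx'.2.trans hx.2)) (hi cφ hx'.1 hx'.2 hx.2)]
      have h1 := key x' hx' (fun y hy => (mm hy.1 hy.2 (hx'.2.trans hx.2)).trans hmx.le) hmx.le
      have h2 : ∫ y in x'..x, φ y ≤ 0 := by
        have h3 : ∫ y in x'..x, φ y ≤ ∫ y in x'..x, (0 : ℝ) := by
          apply intervalIntegral.integral_mono_on hx'.2 (hi cφ hx'.1 hx'.2 hx.2)
            intervalIntegrable_const
          intro y hy
          exact hhigh y ⟨hx'.1.trans hy.1, hy.2⟩ (hmx ▸ mm hx'.1 hy.1 (hy.2.trans hx.2))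
        simpa using h3
      linarith
  have e : ∫ y in p..x, (-(ζ1 (m y) * (f y * (f1 y * f2 y))) - ζ (m y) * f2 y ^ 2) =
      ∫ y in p..x, φ y := by
    simp only [hφ]
  rw [e]
  exact hgoal

end Pool.Agent.Q162.TF
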